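import Mathlib

/-!
# Covering a finitely generated monoid of natural numbers by multiplicative windows
-/

set_option autoImplicit false

namespace Pool.Agent.NH25.MW

/-- few elements in multiplicative windows give few elements -/
theorem cov_win (A : Finset ℕ) (hA : ∀ a ∈ A, 2 ≤ a) (b : ℕ) (hb1 : 1 ≤ b) (hb : ∏ a ∈ A, a ≤ 2 ^ b) (E D : ℕ)
    (hD : 1 ≤ D) (bad : ℕ → Prop)
    (hwin : ∀ H n : ℕ, (H + 2) ^ E ≤ n → ∀ S : Finset ℕ,
      (∀ s ∈ S, bad s ∧ ∃ u ∈ Submonoid.closure (A : Set ℕ), u ≤ H ∧ s = n * u) → S.card ≤ D)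
    (T : ℕ) (B : Finset ℕ)
    (hB : ∀ t ∈ B, bad t ∧ t ∈ Submonoid.closure (A : Set ℕ) ∧ 2 ≤ t ∧ t ≤ T) :
    B.card ≤ D * ((Nat.log 2 (Nat.log 2 T) + 1) * (8 * b * (E + 1) + 1) ^ A.card) := by
  classical
  -- the exponents
  have hrep : ∀ t : ℕ, ∃ m : A → ℕ, t ∈ Submonoid.closure (A : Set ℕ) → t = ∏ a : A, a.1 ^ m a := by
    intro t
    by_cases ht : t ∈ Submonoid.closure (A : Set ℕ)
    · obtain ⟨m, hm⟩ := Submonoid.mem_closure_finset'.1 ht
      exact ⟨m, fun _ => hm⟩
    · exact ⟨0, fun h => absurd h ht⟩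
  choose m hm using hrep
  have hA0 : ∀ a : A, 0 < (a : ℕ) := fun a => by
    have := hA a a.2
    omega
  set c : ℕ := 2 * b * (E + 1) with hc
  have hc2 : 2 ≤ c := by
    rw [hc]
    nlinarith
  set s : ℕ → ℕ := fun j => max 1 (2 ^ j / c) with hs
  have hs1 : ∀ j, 1 ≤ s j := fun j => le_max_left _ _
  set f : ℕ → ℕ × (A → ℕ) := fun t =>
    (Nat.log 2 (Nat.log 2 t), fun a => m t a / s (Nat.log 2 (Nat.log 2 t))) with hf
  -- bounds for the exponents
  have hexp : ∀ t ∈ B, ∀ a : A, m t a < 2 ^ (Nat.log 2 (Nat.log 2 t) + 1) := by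
    intro t ht a
    obtain ⟨-, htM, ht2, -⟩ := hB t ht
    have h1 : 2 ^ m t a ≤ t := by
      conv_rhs => rw [hm t htM]
      calc 2 ^ m t a ≤ a.1 ^ m t a := Nat.pow_le_pow_left (hA a a.2) _
        _ ≤ ∏ a : A, a.1 ^ m t a := by
          refine Finset.single_le_prod' (f := fun a : A => a.1 ^ m t a) (fun i _ => ?_) (Finset.mem_univ a)
          exact Nat.one_le_pow _ _ (hA0 i)
    have h2 : m t a ≤ Nat.log 2 t := Nat.le_log_of_pow_le (by norm_num) h1
    exact lt_of_le_of_lt h2 (Nat.lt_pow_succ_log_self (by norm_num) _)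
  have hmaps : ∀ t ∈ B, f t ∈ (Finset.range (Nat.log 2 (Nat.log 2 T) + 1)) ×ˢ
      (Fintype.piFinset fun _ : A => Finset.range (8 * b * (E + 1) + 1)) := by
    intro t ht
    obtain ⟨-, htM, ht2, htT⟩ := hB t ht
    rw [Finset.mem_product, Fintype.mem_piFinset]
    have hj0 : Nat.log 2 (Nat.log 2 t) ≤ Nat.log 2 (Nat.log 2 T) := Nat.log_mono_right (Nat.log_mono_right htT)
    refine ⟨Finset.mem_range.2 (Nat.lt_succ_of_le hj0), fun a => ?_⟩
    rw [Finset.mem_range, Nat.lt_succ_iff]
    show m t a / s (Nat.log 2 (Nat.log 2 t)) ≤ _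
    set j := Nat.log 2 (Nat.log 2 t) with hj
    have h1 := hexp t ht a
    rw [← hj] at h1
    have h4c : 8 * b * (E + 1) = 4 * c := by
      rw [hc]
      ring
    rw [h4c]
    by_cases hjc : 2 ^ j < c
    · have h2 : m t a < 2 * c := by
        rw [pow_succ] at h1
        omega
      exact (Nat.div_le_self _ _).trans (by omega)
    · push Not at hjc
      have h2 : 1 ≤ 2 ^ j / c := (Nat.one_le_div_iff (by omega)).2 hjc
      have h3 : s j = 2 ^ j / c := by
        rw [hs]
        exact max_eq_right h2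
      rw [h3]
      have h4 : 2 ^ j < (2 ^ j / c + 1) * c := by
        have := Nat.lt_div_mul_add (a := 2 ^ j) (b := c) (by omega)
        nlinarith
      refine Nat.div_le_of_le_mul ?_
      have h5 : (2 ^ j / c + 1) * c ≤ 2 * (2 ^ j / c) * c := Nat.mul_le_mul_right _ (by omega)
      rw [pow_succ] at h1
      nlinarith
  -- the fibres
  have hfib : ∀ v ∈ (Finset.range (Nat.log 2 (Nat.log 2 T) + 1)) ×ˢ
      (Fintype.piFinset fun _ : A => Finset.range (8 * b * (E + 1) + 1)),
      (B.filter fun t => f t = v).card ≤ D := by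
    rintro ⟨j, v⟩ -
    by_cases hjc : 2 ^ j < c
    · refine le_trans (Finset.card_le_one.2 ?_) hD
      intro t ht t' ht'
      obtain ⟨htB, hft⟩ := Finset.mem_filter.1 ht
      obtain ⟨htB', hft'⟩ := Finset.mem_filter.1 ht'
      have hsj : s j = 1 := by
        rw [hs]
        simp only
        rw [Nat.div_eq_of_lt hjc]
        rfl
      have h1 : ∀ t ∈ B, f t = (j, v) → m t = v := by
        intro t _ h
        have h2 : Nat.log 2 (Nat.log 2 t) = j := congrArg Prod.fst h
        have h3 := congrArg Prod.snd h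
        funext a
        have h4 := congrFun h3 a
        simp only [hf] at h4
        rw [h2, hsj, Nat.div_one] at h4
        exact h4
      rw [hm t (hB t htB).2.1, hm t' (hB t' htB').2.1, h1 t htB hft, h1 t' htB' hft']
    · push Not at hjc
      have h2 : 1 ≤ 2 ^ j / c := (Nat.one_le_div_iff (by omega)).2 hjc
      have h3 : s j = 2 ^ j / c := by
        rw [hs]
        exact max_eq_right h2
      set n : ℕ := ∏ a : A, a.1 ^ (s j * v a) with hn
      set H : ℕ := ∏ a : A, a.1 ^ s j with hH
      have hdec : ∀ t ∈ B, f t = (j, v) → t = n * ∏ a : A, a.1 ^ (m t a % s j) := by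
        intro t ht h
        have h4 : Nat.log 2 (Nat.log 2 t) = j := congrArg Prod.fst h
        have h5 := congrArg Prod.snd h
        conv_lhs => rw [hm t (hB t ht).2.1]
        rw [hn, ← Finset.prod_mul_distrib]
        refine Finset.prod_congr rfl fun a _ => ?_
        have h6 := congrFun h5 a
        simp only [hf] at h6
        rw [h4] at h6
        rw [← pow_add, ← h6, Nat.div_add_mod]
      have huH : ∀ t, ∏ a : A, a.1 ^ (m t a % s j) ≤ H := by
        intro t
        refine Finset.prod_le_prod' fun a _ => ?_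
        exact Nat.pow_le_pow_right (hA0 a) (Nat.mod_lt _ (hs1 j)).le
      have huM : ∀ t, ∏ a : A, a.1 ^ (m t a % s j) ∈ Submonoid.closure (A : Set ℕ) := fun t =>
        Submonoid.prod_mem _ fun a _ => Submonoid.pow_mem _ (Submonoid.subset_closure a.2) _
      rcases (B.filter fun t => f t = (j, v)).eq_empty_or_nonempty with he | ⟨t₀, ht₀⟩
      · rw [he, Finset.card_empty]
        exact Nat.zero_le _
      refine hwin H n ?_ _ fun t ht => ?_
      · obtain ⟨ht₀B, hft₀⟩ := Finset.mem_filter.1 ht₀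
        have h4 : Nat.log 2 (Nat.log 2 t₀) = j := congrArg Prod.fst hft₀
        have ht2 := (hB t₀ ht₀B).2.2.1
        have hl1 : Nat.log 2 t₀ ≠ 0 := (Nat.log_pos (by norm_num) ht2).ne'
        have h5 : 2 ^ (2 ^ j) ≤ t₀ := by
          refine (Nat.pow_le_pow_right (by norm_num) ?_).trans (Nat.pow_log_le_self 2 (by omega))
          rw [← h4]
          exact Nat.pow_log_le_self 2 hl1
        have h6 : t₀ ≤ n * H := by
          rw [hdec t₀ ht₀B hft₀]
          exact Nat.mul_le_mul_left _ (huH t₀)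
        have hH0 : 0 < H := Finset.prod_pos fun a _ => pow_pos (hA0 a) _
        have hHb : H ≤ 2 ^ (b * s j) := by
          rw [hH, Finset.prod_pow]
          rw [pow_mul]
          refine Nat.pow_le_pow_left ?_ _
          rw [Finset.prod_coe_sort A (fun a => a)]
          exact hb
        have hx : 1 ≤ b * s j := Nat.mul_pos hb1 (hs1 j)
        have hH2 : H + 2 ≤ 2 ^ (2 * (b * s j)) := by
          have h7 : 2 ^ (2 * (b * s j)) = 2 ^ (b * s j) * 2 ^ (b * s j) := by
            rw [two_mul, pow_add]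
          have h8 : 2 ≤ 2 ^ (b * s j) := by
            calc 2 = 2 ^ 1 := (pow_one 2).symm
              _ ≤ _ := Nat.pow_le_pow_right (by norm_num) hx
          rw [h7]
          nlinarith
        have h9 : (H + 2) ^ E * H ≤ n * H := by
          calc (H + 2) ^ E * H ≤ (H + 2) ^ E * (H + 2) := Nat.mul_le_mul_left _ (by omega)
            _ = (H + 2) ^ (E + 1) := (pow_succ _ _).symm
            _ ≤ (2 ^ (2 * (b * s j))) ^ (E + 1) := Nat.pow_le_pow_left hH2 _
            _ = 2 ^ (s j * c) := by
              rw [← pow_mul, hc]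
              congr 1
              ring
            _ ≤ 2 ^ (2 ^ j) := by
              refine Nat.pow_le_pow_right (by norm_num) ?_
              rw [h3]
              exact Nat.div_mul_le_self _ _
            _ ≤ t₀ := h5
            _ ≤ n * H := h6
        exact Nat.le_of_mul_le_mul_right h9 hH0
      · obtain ⟨htB, hft⟩ := Finset.mem_filter.1 ht
        exact ⟨(hB t htB).1, _, huM t, huH t, hdec t htB hft⟩
  have h1 := Finset.card_le_mul_card_image_of_maps_to hmaps D hfib
  refine h1.trans (le_of_eq ?_)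
  rw [Finset.card_product, Finset.card_range, Fintype.card_piFinset]
  simp only [Finset.card_range, Finset.prod_const, Finset.card_univ, Fintype.card_coe]

end Pool.Agent.NH25.MW
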