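import Pool.Agent.NH25.MW.Leg
import Pool.Agent.Y113.P.Base

/-!
# Legendre functions at the points `z / u`: the G-systems
-/

set_option autoImplicit false

open PowerSeries

namespace Pool.Agent.NH25.MW

open Pool.Agent.Y113 Pool.Agent.R351.GD

/-- the common denominator -/
noncomputable def PTu {k : ℕ} (u : Fin k → ℕ) : Polynomial ℤ := ∏ l, sp (u l) 3 (TT 0)

theorem fin_u (ho : T_ode) (hb : T_base) (k : ℕ) : ∃ q : ℕ, ∃ E : ℕ → ℕ, PB E ∧ ∀ (Δ H : ℕ) (u : Fin k → ℕ),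
    (∀ l, 1 ≤ u l ∧ u l ≤ H) → GSys q (((H : ℝ) + 2) ^ E Δ) (PTu u) (pmu (Δ := Δ) u) := by
  obtain ⟨Eb, hEb⟩ := hb
  have hE₀ : ∀ Δ H u : ℕ, 1 ≤ u → u ≤ H → GSys 3 (((H : ℝ) + 2) ^ (4 + (Eb + 1) * (9 * Δ + 1))) (sp u 3 (TT 0))
      (fun e : Ex Δ => rs u (mon 0 e)) := by
    intro Δ H u hu huH
    refine (gsys_rs ((mon4 ho (hEb 0) Δ).mono le_rfl (pow_base 0 _ _)) hu).mono le_rfl ?_
    have h1 : (u : ℝ) ≤ (H : ℝ) + 2 := by
      have : (u : ℝ) ≤ H := by exact_mod_cast huH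
      linarith
    have h2 : ((0 : ℕ) : ℝ) + 2 ≤ (H : ℝ) + 2 := by
      have : (0 : ℝ) ≤ (H : ℝ) := by positivity
      push_cast
      linarith
    rw [pow_add ((H : ℝ) + 2) 4]
    exact mul_le_mul (pow_le_pow_left₀ (by positivity) h1 _) (pow_le_pow_left₀ (by positivity) h2 _) (by positivity)
      (by positivity)
  have hE₀p : PB fun Δ => 4 + (Eb + 1) * (9 * Δ + 1) :=
    (PB.const 4).add ((PB.const (Eb + 1)).mul (((PB.const 9).mul PB.id).add (PB.const 1)))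
  induction k with
  | zero =>
    refine ⟨0, fun _ => 0, PB.const 0, fun Δ H u _ => ?_⟩
    have h1 : GSys 0 (1 : ℝ) 1 (fun _ : Fin 0 → Ex Δ => (1 : ℚ⟦X⟧)) := by
      refine GSys.const le_rfl (by simp) fun l => ?_
      rw [Polynomial.coeff_one]
      split_ifs <;> simp
    have h2 : (pmu (Δ := Δ) u) = fun _ => 1 := by
      funext b
      simp [pmu]
    have h3 : PTu u = 1 := by simp [PTu]
    rw [h2, h3]
    simpa using h1
  | succ k ih =>
    obtain ⟨q, Ek, hEkp, hEk⟩ := ih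
    obtain ⟨E₁, hE₁⟩ := t_enl 3 q
    obtain ⟨E₂, hE₂⟩ := t_enl q 3
    refine ⟨q + 3, fun Δ => (q + 3 + 1) + 2 * (((4 + (Eb + 1) * (9 * Δ + 1)) + Ek Δ + 1) * (E₁ + E₂)), ?_,
      fun Δ H g hg => ?_⟩
    · exact (PB.const (q + 3 + 1)).add ((PB.const 2).mul (((hE₀p.add hEkp).add (PB.const 1)).mul (PB.const (E₁ + E₂))))
    have hE₀ := hE₀ Δ H
    have hE := hEk Δ H
    set E₀ := 4 + (Eb + 1) * (9 * Δ + 1)
    set E := Ek Δ
    set E' := E₀ + E with hE'
    set E'' := (E' + 1) * (E₁ + E₂) with hE''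
    have hg1 := one_le_base H
    have h1 : GSys 3 (((H : ℝ) + 2) ^ E') (sp (g 0) 3 (TT 0)) (fun e : Ex Δ => rs (g 0) (mon 0 e)) := by
      refine (hE₀ (g 0) (hg 0).1 (hg 0).2).mono le_rfl ?_
      exact base_mono hg1 (Nat.le_add_right _ _)
    have h2 : GSys q (((H : ℝ) + 2) ^ E') (PTu fun l : Fin k => g l.succ) (pmu (Δ := Δ) fun l : Fin k => g l.succ) :=
      (hE _ fun l => hg l.succ).mono le_rfl (base_mono hg1 (Nat.le_add_left _ _))
    have h3 := hE₁ _ _ _ (PTu fun l : Fin k => g l.succ) _ h1 h2.degT h2.sizeT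
    have h4 := hE₂ _ _ _ (sp (g 0) 3 (TT 0)) _ h2 h1.degT h1.sizeT
    have hE1 : (2 * ((H : ℝ) + 2) ^ E') ^ E₁ ≤ ((H : ℝ) + 2) ^ E'' := by
      refine (pow_base H _ _).trans (base_mono hg1 ?_)
      exact Nat.mul_le_mul_left _ (Nat.le_add_right _ _)
    have hE2 : (2 * ((H : ℝ) + 2) ^ E') ^ E₂ ≤ ((H : ℝ) + 2) ^ E'' := by
      refine (pow_base H _ _).trans (base_mono hg1 ?_)
      exact Nat.mul_le_mul_left _ (Nat.le_add_left _ _)
    have hPT : PTu g = sp (g 0) 3 (TT 0) * PTu (fun l : Fin k => g l.succ) := by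
      simp [PTu, Fin.prod_univ_succ]
    have h5 : GSys (q + 3) (((H : ℝ) + 2) ^ E'') (PTu g) (fun e : Ex Δ => rs (g 0) (mon 0 e)) := by
      rw [hPT]
      exact h3.mono (by omega) hE1
    have h6 : GSys (q + 3) (((H : ℝ) + 2) ^ E'') (PTu g) (pmu (Δ := Δ) fun l : Fin k => g l.succ) := by
      rw [hPT, mul_comm]
      exact h4.mono le_rfl hE2
    have hC' : (2 : ℝ) ^ (q + 3 + 1) * (((H : ℝ) + 2) ^ E'' * ((H : ℝ) + 2) ^ E'') ≤
        ((H : ℝ) + 2) ^ ((q + 3 + 1) + 2 * E'') := by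
      rw [pow_add ((H : ℝ) + 2), two_mul E'', pow_add ((H : ℝ) + 2) E'']
      refine mul_le_mul_of_nonneg_right ?_ (by positivity)
      exact pow_le_pow_left₀ (by norm_num) (by linarith [show (0 : ℝ) ≤ H by positivity]) _
    have h7 := (prod_asym h5 h6).mono le_rfl hC'
    have h8 := h7.reindex (Fin.consEquiv fun _ => Ex Δ).symm
    have h9 : (pmu (Δ := Δ) g) = fun j =>
        rs (g 0) (mon 0 ((Fin.consEquiv fun _ => Ex Δ).symm j).1) *
          pmu (Δ := Δ) (fun l : Fin k => g l.succ) ((Fin.consEquiv fun _ => Ex Δ).symm j).2 := by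
      funext b
      unfold pmu
      rw [Fin.prod_univ_succ]
      rfl
    rw [h9]
    exact h8

/-- the denominator does not vanish at `1 / t` -/
theorem aeval_sp {u n : ℕ} (hu : 0 < u) {P : Polynomial ℤ} (hP : P.natDegree ≤ n) (x : ℝ) :
    Polynomial.aeval x (sp u n P) = (u : ℝ) ^ n * Polynomial.aeval (x / u) P := by
  have hu0 : (u : ℝ) ≠ 0 := by exact_mod_cast hu.ne'
  unfold sp
  rw [map_sum, Polynomial.aeval_eq_sum_range' (Nat.lt_succ_of_le hP), Finset.mul_sum]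
  refine Finset.sum_congr rfl fun l hl => ?_
  have hln : l ≤ n := Nat.lt_succ_iff.1 (Finset.mem_range.1 hl)
  rw [map_mul, map_pow, Polynomial.aeval_X, Polynomial.aeval_C]
  simp only [algebraMap_int_eq, eq_intCast, Int.cast_mul, Int.cast_pow, Int.cast_natCast, zsmul_eq_mul]
  have h2 : (u : ℝ) ^ n = (u : ℝ) ^ (n - l) * (u : ℝ) ^ l := by
    rw [← pow_add, Nat.sub_add_cancel hln]
  rw [h2, div_pow]
  field_simp

theorem PTu_ne {k : ℕ} (u : Fin k → ℕ) (t : ℕ) (hu : ∀ l, 1 ≤ u l) (ht : 2 ≤ t) :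
    Polynomial.aeval (1 / (t : ℝ)) (PTu u) ≠ 0 := by
  unfold PTu
  rw [map_prod, Finset.prod_ne_zero_iff]
  intro l _
  have hul := hu l
  have h1 : (1 : ℝ) ≤ u l := by exact_mod_cast hul
  have h2 : (2 : ℝ) ≤ t := by exact_mod_cast ht
  have hd : (TT 0).natDegree ≤ 3 := by
    obtain ⟨Eb, hEb⟩ := base_of Pool.Agent.Y37.GF.t_ode
    exact (hEb 0).degT
  rw [aeval_sp (by omega) hd]
  refine mul_ne_zero (pow_ne_zero _ (by positivity)) ?_
  unfold TT
  simp only [map_mul, map_sub, map_one, Polynomial.aeval_X, map_ofNat, Nat.cast_zero, zero_mul,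
    map_zero, sub_zero, zero_add, one_mul, mul_one]
  have h3 : 1 / (t : ℝ) / u l ≠ 0 := by positivity
  have h4 : (1 : ℝ) - 1 / (t : ℝ) / u l ≠ 0 := by
    have h5 : 1 / (t : ℝ) / u l < 1 := by
      rw [div_div, div_lt_one (by positivity)]
      nlinarith
    linarith
  exact mul_ne_zero (mul_ne_zero (by norm_num) h3) h4

end Pool.Agent.NH25.MW
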