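import Pool.Agent.R351.GD.L.Inp
import Pool.Agent.NH25.MW.Sys

/-!
# Legendre functions at `1 / (t u)`: no relations of small degree between the values
-/

set_option autoImplicit false

open PowerSeries

namespace Pool.Agent.NH25.MW

open Pool.Agent.Y113 Pool.Agent.R351.GD

lemma cv_rs {t : ℝ} {u : ℕ} {f : ℚ⟦X⟧} (h : Cv (t * u) f) : Cv t (rs u f) := by
  unfold Cv at h ⊢
  refine h.congr fun m => ?_
  rw [coeff_rs]
  push_cast
  rw [abs_div, abs_of_nonneg (a := (u : ℝ) ^ m) (by positivity), div_mul_eq_mul_div, mul_div_assoc, ← div_pow, div_div]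

/-- the values at `1 / (t u)` -/
noncomputable def lgu (t u : ℕ) (a : Fin 3) : ℝ := lgv (t * u) 0 a

theorem legu_norel (N : ℕ) : ∃ E : ℕ → ℕ, PB E ∧ ∀ (Δ H t : ℕ), (H + 2) ^ E Δ ≤ t → ∀ g : Fin N → ℕ,
    Function.Injective g → (∀ l, 1 ≤ g l ∧ g l ≤ H) → ∀ P : MvPolynomial (Fin N × Fin 3) ℚ, P.totalDegree ≤ Δ →
    MvPolynomial.aeval (fun x : Fin N × Fin 3 => lgu t (g x.1) x.2) P = 0 → P = 0 := by
  obtain ⟨E₀, hsd⟩ := t_sd
  obtain ⟨q, EF, hEFp, hF⟩ := fin_u Pool.Agent.Y37.GF.t_ode (base_of Pool.Agent.Y37.GF.t_ode) N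
  obtain ⟨EG, hEGp, hG⟩ := gof_exp Pool.Agent.Y141.GF.t_shid Pool.Agent.Y141.GF.t_loc q
  refine ⟨fun Δ => 1 + (E₀ + 1) + (EF Δ + 1) * EG (((Δ + 1) ^ 4) ^ N), ?_, fun Δ H t ht g hinj hgH P hP hP0 => ?_⟩
  · have h1 : PB fun Δ : ℕ => ((Δ + 1) ^ 4) ^ N := ((PB.id.add (PB.const 1)).pow 4).pow N
    exact (PB.const (1 + (E₀ + 1))).add ((hEFp.add (PB.const 1)).mul (hEGp.comp h1))
  have hF := hF Δ
  have hG := hG (((Δ + 1) ^ 4) ^ N)
  set EF := EF Δ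
  set EG := EG (((Δ + 1) ^ 4) ^ N)
  set E := 1 + (E₀ + 1) + (EF + 1) * EG with hE
  have ht' : (H + 2) ^ E ≤ t := ht
  have hH2 : (1 : ℝ) ≤ (H : ℝ) + 2 := one_le_base H
  have htR : ((H : ℝ) + 2) ^ E ≤ t := by exact_mod_cast ht'
  have hge : ∀ a ≤ E, ((H : ℝ) + 2) ^ a ≤ t := fun a ha => (base_mono hH2 ha).trans htR
  have ht2 : H + 2 ≤ t := by
    have h1 : H + 2 ≤ (H + 2) ^ E := Nat.le_self_pow (by omega) _
    exact h1.trans ht'
  have ht0 : (0 : ℝ) < t := by exact_mod_cast (by omega : 0 < t)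
  have hg1R : ∀ l, (1 : ℝ) ≤ g l := fun l => by exact_mod_cast (hgH l).1
  have htg : ∀ l, (t : ℝ) ≤ (t : ℝ) * g l := fun l => le_mul_of_one_le_right ht0.le (hg1R l)
  have htg0 : ∀ l, (0 : ℝ) < (t : ℝ) * g l := fun l => ht0.trans_le (htg l)
  -- convergence
  have hcv : ∀ l j, Cv ((t : ℝ) * g l) (base 0 j) := by
    intro l j
    refine cv_base (hsd 0).1 ?_ j
    have hgR : (((0 : ℕ) : ℝ)) + 2 ≤ (H : ℝ) + 2 := by
      have : (0 : ℝ) ≤ H := by positivity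
      push_cast
      linarith
    refine lt_of_le_of_lt (pow_le_pow_left₀ (by positivity) hgR _) ?_
    refine lt_of_lt_of_le ?_ ((hge (E₀ + 1) (by rw [hE]; omega)).trans (htg l))
    exact pow_lt_pow_right₀ (by linarith [show (0 : ℝ) ≤ H by positivity]) (by omega)
  have hone : pmu (Δ := Δ) g (fun _ => ⟨fun _ => 0, by simp, Or.inl rfl⟩) = 1 := by
    unfold pmu mon
    simp
  have hEG : (2 * ((H : ℝ) + 2) ^ EF) ^ EG ≤ t := by
    refine (pow_base H _ _).trans (hge _ ?_)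
    rw [hE]
    omega
  have hcard : Fintype.card (Fin N → Ex Δ) ≤ ((Δ + 1) ^ 4) ^ N := by
    rw [Fintype.card_fun, Fintype.card_fin]
    exact Nat.pow_le_pow_left (card_Ex Δ) N
  have hind := hG (Fin N → Ex Δ) (((H : ℝ) + 2) ^ EF) (PTu g) (pmu (Δ := Δ) g)
    (fun _ => ⟨fun _ => 0, by simp, Or.inl rfl⟩) t hcard (hF H g hgH) hone (li_u N Δ g hinj fun l => (hgH l).1) hEG
    (PTu_ne g t (fun l => (hgH l).1) (by omega))
  have hind2 := hind.comp (fun s : {s // s ∈ expoI (Fin N × Fin 3) Δ} => ixk Δ s) (ixk_inj Δ)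
  rw [aeval_expoQ hP] at hP0
  have h3 := Fintype.linearIndependent_iff.1 hind2 (fun s => P.coeff s.1) (by
    rw [← hP0]
    refine Finset.sum_congr rfl fun s _ => congrArg _ ?_
    show ev t (pmu (Δ := Δ) g (ixk Δ s)) = _
    unfold pmu
    rw [Cv.ev_prod ht0 _ _ fun p _ => cv_rs (cv_mon (htg0 p) (hcv _) _), Fintype.prod_prod_type]
    refine Finset.prod_congr rfl fun i _ => ?_
    rw [ev_rs, ev_mon (htg0 i) (hcv i), Fin.prod_univ_four, Fin.prod_univ_three]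
    obtain ⟨a0, a1, a2, a3⟩ := ixk_val Δ s i
    rw [a0, a1, a2, a3, pow_zero, mul_one]
    have hc : ((t * g i : ℕ) : ℝ) = (t : ℝ) * g i := by push_cast; rfl
    show ev ((t : ℝ) * g i) (uu 0) ^ s.1 (i, 0) * ev ((t : ℝ) * g i) (vv 0) ^ s.1 (i, 1) *
      ev ((t : ℝ) * g i) (ww 0) ^ s.1 (i, 2) = ev ((t * g i : ℕ) : ℝ) (uu 0) ^ s.1 (i, 0) *
      ev ((t * g i : ℕ) : ℝ) (vv 0) ^ s.1 (i, 1) * ev ((t * g i : ℕ) : ℝ) (ww 0) ^ s.1 (i, 2)
    rw [hc])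
  ext s
  rw [MvPolynomial.coeff_zero]
  by_contra hne
  have hs : s ∈ P.support := MvPolynomial.mem_support_iff.2 hne
  have h4 := MvPolynomial.le_totalDegree hs
  rw [deg_eqI] at h4
  exact hne (h3 ⟨s, mem_expoI.2 (h4.trans hP)⟩)

/-- the exponents -/
noncomputable def Evu (N : ℕ) : ℕ → ℕ := (legu_norel N).choose

theorem Evu_pb (N : ℕ) : PB (Evu N) := (legu_norel N).choose_spec.1

theorem legu_inp : Pool.Agent.Y916.Om.Inp Evu (fun t : ℕ => t) (fun t g (a : Fin 3) => ((lgu t g a : ℝ) : ℂ)) := by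
  intro N Δ H t ht g hg hgb P hP hP0
  refine (legu_norel N).choose_spec.2 Δ H t ht g hg hgb P hP ?_
  have h3 := MvPolynomial.aeval_algebraMap_apply (A := ℝ) ℂ
    (fun x : Fin N × Fin 3 => lgu t (g x.1) x.2) P
  have h4 : MvPolynomial.aeval (fun x : Fin N × Fin 3 => (algebraMap ℝ ℂ) (lgu t (g x.1) x.2)) P = 0 := hP0
  exact (algebraMap ℝ ℂ).injective ((h3.symm.trans h4).trans (map_zero _).symm)

/-- the values in terms of the periods -/
theorem legu_vals : ∃ (E : ℕ) (α : ℝ), ∀ (t u : ℕ), 2 ^ E ≤ t → 1 ≤ u →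
    KK (1 / ((t * u : ℕ) : ℝ)) = Real.pi / 2 * lgu t u 0 ∧ EE (1 / ((t * u : ℕ) : ℝ)) = Real.pi / 2 * lgu t u 1 ∧
    KK (1 - 1 / ((t * u : ℕ) : ℝ)) = lgu t u 2 + (α + 1 / 2 * Real.log t + 1 / 2 * Real.log u) * lgu t u 0 := by
  obtain ⟨E, α, h⟩ := leg_vals
  refine ⟨E, α, fun t u ht hu => ?_⟩
  have h1 := h 0 (t * u) (by
    rw [zero_add]
    exact ht.trans (Nat.le_mul_of_pos_right _ (by omega)))
  have ht0 : (t : ℝ) ≠ 0 := by
    have : 0 < t := lt_of_lt_of_le (by positivity) ht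
    exact_mod_cast this.ne'
  have hu0 : (u : ℝ) ≠ 0 := by exact_mod_cast (by omega : u ≠ 0)
  have h2 : ((t * u : ℕ) : ℝ) - ((0 : ℕ) : ℝ) = ((t * u : ℕ) : ℝ) := by simp
  rw [h2] at h1
  have h3 : Real.log ((t * u : ℕ) : ℝ) = Real.log t + Real.log u := by
    push_cast
    exact Real.log_mul ht0 hu0
  rw [h3] at h1
  refine ⟨h1.1, h1.2.1, ?_⟩
  rw [h1.2.2]
  unfold lgu
  ring

end Pool.Agent.NH25.MW
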