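import Pool.Agent.Y113.Defs

/-!
# Rescaled G-systems

`f(z / u)` for a natural number `u`.
-/

set_option autoImplicit false

open PowerSeries

namespace Pool.Agent.NH25.MW

open Pool.Agent.Y113

/-- `f(z / u)` -/
noncomputable def rs (u : ℕ) : ℚ⟦X⟧ →+* ℚ⟦X⟧ := PowerSeries.rescale (1 / (u : ℚ))

lemma coeff_rs (u m : ℕ) (f : ℚ⟦X⟧) : coeff m (rs u f) = coeff m f / (u : ℚ) ^ m := by
  unfold rs
  rw [PowerSeries.coeff_rescale, one_div, inv_pow]
  field_simp

/-- `u^n P(z / u)` for polynomials of degree at most `n` -/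
noncomputable def sp (u n : ℕ) (P : Polynomial ℤ) : Polynomial ℤ :=
  ∑ l ∈ Finset.range (n + 1), Polynomial.C ((u : ℤ) ^ (n - l) * P.coeff l) * Polynomial.X ^ l

lemma coeff_sp (u n : ℕ) (P : Polynomial ℤ) (m : ℕ) :
    (sp u n P).coeff m = if m ≤ n then (u : ℤ) ^ (n - m) * P.coeff m else 0 := by
  unfold sp
  rw [Polynomial.finsetSum_coeff]
  simp only [Polynomial.coeff_C_mul_X_pow]
  rw [Finset.sum_ite_eq]
  simp only [Finset.mem_range, Nat.lt_succ_iff]

lemma natDegree_sp (u n : ℕ) (P : Polynomial ℤ) : (sp u n P).natDegree ≤ n := by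
  rw [Polynomial.natDegree_le_iff_coeff_eq_zero]
  intro N hN
  rw [coeff_sp, if_neg (by omega)]

lemma coeff_ps (P : Polynomial ℤ) (m : ℕ) : coeff m (ps P) = ((P.coeff m : ℤ) : ℚ) := by
  unfold ps
  rw [Polynomial.coeff_coe, Polynomial.coeff_map]
  rfl

lemma ps_sp {u n : ℕ} (hu : 0 < u) {P : Polynomial ℤ} (hP : P.natDegree ≤ n) :
    ps (sp u n P) = (u : ℚ⟦X⟧) ^ n * rs u (ps P) := by
  have hu0 : (u : ℚ) ≠ 0 := by exact_mod_cast hu.ne'
  ext m
  have h1 : ((u : ℚ⟦X⟧) ^ n) = PowerSeries.C ((u : ℚ) ^ n) := by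
    rw [map_pow]
    simp
  rw [h1, PowerSeries.coeff_C_mul, coeff_rs, coeff_ps, coeff_ps, coeff_sp]
  split_ifs with h
  · push_cast
    have h2 : (u : ℚ) ^ n = (u : ℚ) ^ (n - m) * (u : ℚ) ^ m := by
      rw [← pow_add, Nat.sub_add_cancel h]
    rw [h2]
    field_simp
  · rw [Polynomial.coeff_eq_zero_of_natDegree_lt (by omega)]
    simp

lemma hd_rs (u s : ℕ) (f : ℚ⟦X⟧) : hd s (rs u f) = PowerSeries.C (1 / (u : ℚ) ^ s) * rs u (hd s f) := by
  ext m
  rw [PowerSeries.coeff_C_mul, coeff_rs]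
  unfold hd
  rw [PowerSeries.coeff_mk, PowerSeries.coeff_mk, coeff_rs, pow_add]
  rcases eq_or_ne (u : ℚ) 0 with h | h
  · rcases Nat.eq_zero_or_pos s with rfl | hs
    · simp
    · rw [h]
      simp [zero_pow hs.ne']
  · field_simp

lemma ev_rs (t : ℝ) (u : ℕ) (f : ℚ⟦X⟧) : ev t (rs u f) = ev (t * u) f := by
  unfold ev
  refine tsum_congr fun m => ?_
  rw [coeff_rs]
  push_cast
  rw [div_mul_eq_mul_div, mul_div_assoc, ← div_pow, div_div]

theorem gsys_rs {ι : Type} [Fintype ι] {q : ℕ} {C : ℝ} {T : Polynomial ℤ} {y : ι → ℚ⟦X⟧} (h : GSys q C T y) {u : ℕ}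
    (hu : 1 ≤ u) : GSys q ((u : ℝ) ^ (q + 1) * C) (sp u q T) (fun i => rs u (y i)) := by
  have hC := h.one_le
  have hC0 : 0 < C := zero_lt_one.trans_le hC
  have huR : (1 : ℝ) ≤ u := by exact_mod_cast hu
  have hu0 : (0 : ℝ) < u := by linarith
  have huQ : (u : ℚ) ≠ 0 := by exact_mod_cast (by omega : u ≠ 0)
  have h1 : (1 : ℝ) ≤ (u : ℝ) ^ (q + 1) := one_le_pow₀ huR
  have hCC : C ≤ (u : ℝ) ^ (q + 1) * C := le_mul_of_one_le_left hC0.le h1
  refine ⟨hC.trans hCC, natDegree_sp _ _ _, ?_, ?_, ?_, ?_⟩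
  · intro l
    rw [coeff_sp]
    split_ifs with hl
    · push_cast
      rw [abs_mul, abs_of_nonneg (by positivity)]
      refine mul_le_mul ?_ (h.sizeT l) (abs_nonneg _) (by positivity)
      exact pow_le_pow_right₀ huR (by omega)
    · simp
      positivity
  · intro i m
    rw [coeff_rs]
    push_cast
    rw [abs_div, abs_of_nonneg (a := (u : ℝ) ^ m) (by positivity)]
    refine (div_le_self (abs_nonneg _) (one_le_pow₀ huR)).trans ((h.size i m).trans ?_)
    exact pow_le_pow_left₀ hC0.le hCC _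
  · intro m
    obtain ⟨d, hd0, hd, hd'⟩ := h.den m
    refine ⟨d * u ^ m, Nat.mul_pos hd0 (pow_pos (by omega) _), ?_, ?_⟩
    · push_cast
      rw [mul_pow, mul_comm]
      refine mul_le_mul ?_ hd (by positivity) (by positivity)
      rw [← pow_mul]
      exact pow_le_pow_right₀ huR (by nlinarith)
    · intro i j hj
      obtain ⟨a, ha⟩ := hd' i j hj
      refine ⟨a * (u : ℤ) ^ (m - j), ?_⟩
      rw [coeff_rs]
      push_cast
      rw [← ha]
      have h2 : (u : ℚ) ^ m = (u : ℚ) ^ (m - j) * (u : ℚ) ^ j := by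
        rw [← pow_add, Nat.sub_add_cancel hj]
      rw [h2]
      field_simp
  · intro k
    obtain ⟨g, hg0, hg, hg'⟩ := h.der k
    refine ⟨g * u ^ k, Nat.mul_pos hg0 (pow_pos (by omega) _), ?_, fun s hs => ?_⟩
    · push_cast
      rw [mul_pow, mul_comm]
      refine mul_le_mul ?_ hg (by positivity) (by positivity)
      rw [← pow_mul]
      exact pow_le_pow_right₀ huR (by nlinarith)
    obtain ⟨G, hGd, hGc, hGe⟩ := hg' s hs
    refine ⟨fun i j => Polynomial.C ((u : ℤ) ^ (k - s)) * sp u (q * s) (G i j), ?_, ?_, ?_⟩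
    · intro i j
      exact (Polynomial.natDegree_C_mul_le _ _).trans (natDegree_sp _ _ _)
    · intro i j l
      rw [Polynomial.coeff_C_mul, coeff_sp]
      split_ifs with hl
      · push_cast
        rw [← mul_assoc, ← pow_add, abs_mul, abs_of_nonneg (a := (u : ℝ) ^ _) (by positivity), mul_pow]
        refine mul_le_mul ?_ (hGc i j l) (abs_nonneg _) (by positivity)
        rw [← pow_mul]
        refine pow_le_pow_right₀ huR ?_
        have h2 : q * s ≤ q * k := Nat.mul_le_mul_left _ hs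
        have h3 : (q + 1) * (k + 1) = q * k + k + q + 1 := by ring
        omega
      · simp
        positivity
    · intro i
      have h2 := congrArg (rs u) (hGe i)
      simp only [map_mul, map_pow, map_sum, map_natCast] at h2
      rw [hd_rs, ps_sp (by omega) h.degT]
      have h3 : ∀ j, ps (Polynomial.C ((u : ℤ) ^ (k - s)) * sp u (q * s) (G i j)) =
          PowerSeries.C ((u : ℚ) ^ (k - s) * (u : ℚ) ^ (q * s)) * rs u (ps (G i j)) := by
        intro j
        have h4 : ps (Polynomial.C ((u : ℤ) ^ (k - s)) * sp u (q * s) (G i j)) =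
            PowerSeries.C ((u : ℚ) ^ (k - s)) * ps (sp u (q * s) (G i j)) := by
          unfold ps
          rw [Polynomial.map_mul, Polynomial.map_C, Polynomial.coe_mul, Polynomial.coe_C]
          simp
        rw [h4, ps_sp (by omega) (hGd i j), map_mul, mul_assoc]
        congr 2
        rw [map_pow]
        simp
      simp only [h3]
      have h5 : ∀ j, PowerSeries.C ((u : ℚ) ^ (k - s) * (u : ℚ) ^ (q * s)) * rs u (ps (G i j)) * rs u (y j) =
          PowerSeries.C ((u : ℚ) ^ (k - s) * (u : ℚ) ^ (q * s)) * (rs u (ps (G i j)) * rs u (y j)) := fun j => by ring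
      simp only [h5]
      rw [← Finset.mul_sum, ← h2]
      have h6 : ((g * u ^ k : ℕ) : ℚ⟦X⟧) = PowerSeries.C ((u : ℚ) ^ k) * (g : ℚ⟦X⟧) := by
        push_cast
        rw [map_pow, mul_comm]
        simp
      have h7 : ((u : ℚ⟦X⟧) ^ q) = PowerSeries.C ((u : ℚ) ^ q) := by
        rw [map_pow]
        simp
      rw [h6, h7, mul_pow, ← map_pow]
      have h8 : PowerSeries.C ((u : ℚ) ^ k) * (PowerSeries.C (((u : ℚ) ^ q) ^ s) * PowerSeries.C (1 / (u : ℚ) ^ s)) =
          PowerSeries.C ((u : ℚ) ^ (k - s) * (u : ℚ) ^ (q * s)) := by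
        rw [← map_mul, ← map_mul]
        congr 1
        have h9 : (u : ℚ) ^ k = (u : ℚ) ^ (k - s) * (u : ℚ) ^ s := by
          rw [← pow_add, Nat.sub_add_cancel hs]
        rw [h9, ← pow_mul]
        field_simp
      rw [← h8]
      ring

end Pool.Agent.NH25.MW
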