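import Pool.Agent.Y37.GF.LI
import Pool.Agent.R351.GD.L.Mon
import Pool.Agent.NH25.MW.Scale

/-!
# Legendre functions at the points `z / u`: linear independence and G-systems

`u` are distinct natural numbers. The function with the smallest `u` has its singularity at `z = u`, where the others are
holomorphic.
-/

set_option autoImplicit false

open Filter Topology Set

namespace Pool.Agent.NH25.MW

open Pool.Agent.Y113 Pool.Agent.Y37.GF

variable {α β : ℝ}

theorem z1_zero : z1 0 = 1 := by
  unfold z1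
  norm_num

/-- all multipliers -/
theorem multi_u (hD : Dat α β) (Δ : ℕ) (n : ℕ) : ∀ (ι : Type) [Fintype ι] [DecidableEq ι] (u : ι → ℕ)
    (Q : (ι → Ex Δ) → Polynomial ℝ), Fintype.card ι = n → Function.Injective u → (∀ l, 1 ≤ u l) →
    (∀ᶠ z in 𝓝[>] (0 : ℝ), ∑ b, (Q b).eval z * ∏ l, mv (yt α β 0 (z / u l)) (b l) = 0) →
    ∀ b, Q b = 0 := by
  induction n with
  | zero =>
    intro ι _ _ u Q hcard _ _ h b
    have : IsEmpty ι := Fintype.card_eq_zero_iff.1 hcard
    apply poly_zero'
    filter_upwards [h] with z hz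
    rw [Fintype.sum_eq_single b (fun b' hb' => absurd (Subsingleton.elim b' b) hb')] at hz
    simpa using hz
  | succ n ih =>
    intro ι _ _ u Q hcard hu hu1 h b
    have hne : (Finset.univ : Finset ι).Nonempty := by
      rw [← Finset.card_pos, Finset.card_univ, hcard]; omega
    obtain ⟨l₁, -, hl₁⟩ := Finset.exists_min_image Finset.univ u hne
    let e := Equiv.funSplitAt l₁ (Ex Δ)
    have hu10 : (0 : ℝ) < u l₁ := by exact_mod_cast hu1 l₁
    -- the coefficients
    let c : Ex Δ → ℝ → ℝ := fun x z => ∑ b' : {j // j ≠ l₁} → Ex Δ,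
      (Q (e.symm (x, b'))).eval (u l₁ * z) * ∏ l : {j // j ≠ l₁}, mv (yt α β 0 (u l₁ * z / u l)) (b' l)
    have hlt : ∀ l : {j // j ≠ l₁}, (u l₁ : ℝ) < u l := by
      intro l
      have h1 : u l₁ < u l := lt_of_le_of_ne (hl₁ l (Finset.mem_univ _)) fun h => l.2 (hu h.symm)
      exact_mod_cast h1
    have hcan : ∀ x, ∀ z ∈ Icc 0 (z1 0), AnalyticAt ℝ (c x) z := by
      intro x z hz
      rw [z1_zero] at hz
      refine Finset.analyticAt_fun_sum _ fun b' _ => ?_
      refine AnalyticAt.mul ?_ ?_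
      · have h1 : AnalyticAt ℝ (fun y : ℝ => (Q (e.symm (x, b'))).eval y) (u l₁ * z) :=
          (AnalyticOnNhd.eval_polynomial (𝕜 := ℝ) _) _ (Set.mem_univ _)
        exact AnalyticAt.comp (g := fun y : ℝ => (Q (e.symm (x, b'))).eval y) (f := fun z : ℝ => u l₁ * z) h1
          (analyticAt_const.mul analyticAt_id)
      · refine Finset.analyticAt_fun_prod _ fun l _ => mv_an _ fun i => ?_
        have hul : (0 : ℝ) < u l := hu10.trans (hlt l)
        have h1 : AnalyticAt ℝ (fun y : ℝ => yt α β 0 y i) (u l₁ * z / u l) := by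
          refine an_yt' hD (by have := hz.1; positivity) ?_ i
          rw [z1_zero, div_lt_one hul]
          refine lt_of_le_of_lt ?_ (hlt l)
          have := hz.2
          nlinarith
        exact AnalyticAt.comp (g := fun y : ℝ => yt α β 0 y i) (f := fun z : ℝ => u l₁ * z / u l) h1
          ((analyticAt_const.mul analyticAt_id).div_const)
    have hsum : ∀ z : ℝ, ∑ b, (Q b).eval (u l₁ * z) * ∏ l, mv (yt α β 0 (u l₁ * z / u l)) (b l)
        = ∑ x, c x z * mv (yt α β 0 z) x := by
      intro z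
      rw [← e.symm.sum_comp, Fintype.sum_prod_type]
      refine Finset.sum_congr rfl fun x _ => ?_
      rw [Finset.sum_mul]
      refine Finset.sum_congr rfl fun b' _ => ?_
      rw [Fintype.prod_eq_mul_prod_subtype_ne _ l₁]
      have h1 : e.symm (x, b') l₁ = x := by simp [e, Equiv.funSplitAt, Equiv.piSplitAt]
      have h2 : ∀ l : {j // j ≠ l₁}, e.symm (x, b') l = b' l := by
        intro l; simp [e, Equiv.funSplitAt, Equiv.piSplitAt, l.2]
      have h3 : u l₁ * z / u l₁ = z := by field_simp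
      rw [h1, h3]
      simp only [h2]
      ring
    have htend : Tendsto (fun z : ℝ => u l₁ * z) (𝓝[>] 0) (𝓝[>] 0) := by
      refine tendsto_nhdsWithin_iff.2 ⟨?_, ?_⟩
      · have h1 : Tendsto (fun z : ℝ => u l₁ * z) (𝓝 0) (𝓝 0) := by
          have := (continuous_const_mul (u l₁ : ℝ)).tendsto 0
          rwa [mul_zero] at this
        exact h1.mono_left nhdsWithin_le_nhds
      · filter_upwards [self_mem_nhdsWithin] with z hz
        exact mul_pos hu10 hz
    have hz0 := single hD c hcan ((htend.eventually h).mono fun z hz => by rw [← hsum]; exact hz)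
    have htend2 : Tendsto (fun z : ℝ => z / u l₁) (𝓝[>] 0) (𝓝[>] 0) := by
      refine tendsto_nhdsWithin_iff.2 ⟨?_, ?_⟩
      · have h1 : Tendsto (fun z : ℝ => z / u l₁) (𝓝 0) (𝓝 0) := by
          have := (continuous_id.div_const (u l₁ : ℝ)).tendsto 0
          simpa using this
        exact h1.mono_left nhdsWithin_le_nhds
      · filter_upwards [self_mem_nhdsWithin] with z hz
        exact div_pos hz hu10
    have hI : Ioo 0 (z1 0) ∈ 𝓝[>] (0 : ℝ) := Ioo_mem_nhdsGT (z1_pos _)
    have key : ∀ x, ∀ b', Q (e.symm (x, b')) = 0 := by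
      intro x
      refine ih {j // j ≠ l₁} (fun l => u l) (fun b' => Q (e.symm (x, b'))) ?_ ?_ (fun l => hu1 l) ?_
      · rw [Fintype.card_subtype_compl, hcard]; simp
      · intro a b hab; exact Subtype.ext (hu hab)
      · filter_upwards [htend2.eventually hI] with z hz
        have h1 := hz0 _ hz x
        have h2 : (u l₁ : ℝ) * (z / u l₁) = z := by field_simp
        simp only [c, h2] at h1
        exact h1
    have := key (e b).1 (e b).2
    rwa [Prod.mk.eta, Equiv.symm_apply_apply] at this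

theorem SR_rs {r : ℝ} (hr : 0 ≤ r) {f : PowerSeries ℚ} (h : SR r f) {u : ℕ} (hu : 1 ≤ u) : SR r (rs u f) := by
  unfold SR at h ⊢
  refine Summable.of_nonneg_of_le (fun m => by positivity) (fun m => ?_) h
  rw [coeff_rs]
  push_cast
  have huR : (1 : ℝ) ≤ u := by exact_mod_cast hu
  rw [abs_div, abs_of_nonneg (a := (u : ℝ) ^ m) (by positivity)]
  exact mul_le_mul_of_nonneg_right (div_le_self (abs_nonneg _) (one_le_pow₀ huR)) (by positivity)

theorem E_rs (u : ℕ) (f : PowerSeries ℚ) (z : ℝ) : E (rs u f) z = E f (z / u) := by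
  unfold E
  refine tsum_congr fun m => ?_
  rw [coeff_rs]
  push_cast
  rw [div_mul_eq_mul_div, mul_div_assoc, ← div_pow]

/-- all products over the multipliers `u l` -/
noncomputable def pmu {k Δ : ℕ} (u : Fin k → ℕ) (b : Fin k → Ex Δ) : PowerSeries ℚ := ∏ l, rs (u l) (mon 0 (b l))

theorem li_u (k Δ : ℕ) (u : Fin k → ℕ) (hu : Function.Injective u) (hu1 : ∀ l, 1 ≤ u l) :
    LinearIndependent (Polynomial ℚ) (pmu (Δ := Δ) u) := by
  obtain ⟨α, β, hD⟩ := dat
  rw [Fintype.linearIndependent_iff]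
  intro Q hQ
  -- a common radius
  set r : ℝ := 1 / 8 with hr
  have hr0 : 0 < r := by positivity
  have h08 : (1 : ℝ) / (((0 : ℕ) : ℝ) + 8) = r := by
    rw [hr]
    norm_num
  have hSR0 : ∀ e : Ex Δ, SR r (mon 0 e) := fun e => by
    have := SR_mon 0 e
    rwa [h08] at this
  have hSR : ∀ b : Fin k → Ex Δ, ∀ l ∈ (Finset.univ : Finset (Fin k)), SR r (rs (u l) (mon 0 (b l))) :=
    fun b l _ => SR_rs hr0.le (hSR0 _) (hu1 l)
  have hSP : ∀ b : Fin k → Ex Δ, SR r (pmu u b) := fun b => SR.prod _ hr0.le (hSR b)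
  have hle : ∀ (l : Fin k) (z : ℝ), |z| ≤ r → |z / u l| ≤ r := by
    intro l z hz
    have huR : (1 : ℝ) ≤ u l := by exact_mod_cast hu1 l
    rw [abs_div, abs_of_nonneg (a := (u l : ℝ)) (by positivity)]
    exact (div_le_self (abs_nonneg _) huR).trans hz
  have hval : ∀ z : ℝ, |z| ≤ r → ∑ b, ((Q b).map (Rat.castHom ℝ)).eval z *
      ∏ l, mv (fun i => E (four 0 i) (z / u l)) (b l) = 0 := by
    intro z hz
    have h1 : E (∑ b, Q b • pmu u b) z = 0 := by rw [hQ]; simp [E]
    have h2 : ∀ b, Q b • pmu u b = (Q b : PowerSeries ℚ) * pmu u b := fun b => by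
      rw [Algebra.smul_def]; rfl
    simp only [h2] at h1
    rw [E_sum _ hr0.le (fun b _ => (SR.poly _ _).mul hr0.le (hSP b)) hz] at h1
    rw [← h1]
    refine Finset.sum_congr rfl fun b _ => ?_
    rw [E_mul (SR.poly _ _) (hSP b) hz, E_poly]
    unfold pmu
    rw [E_prod _ hr0.le (hSR b) hz]
    congr 1
    · rw [Polynomial.eval_map, Polynomial.aeval_def]; rfl
    · refine Finset.prod_congr rfl fun l _ => ?_
      rw [E_rs, E_mon 0 (b l) (by rw [h08]; exact hle l z hz)]
  have hsmall := yt_small hD 0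
  have hball : ∀ᶠ z in 𝓝 (0 : ℝ), |z| ≤ r := by
    have : Metric.ball (0 : ℝ) r ∈ 𝓝 (0 : ℝ) := Metric.ball_mem_nhds _ hr0
    filter_upwards [this] with z hz
    rw [mem_ball_zero_iff, Real.norm_eq_abs] at hz
    exact hz.le
  have hsm : ∀ᶠ z in 𝓝 (0 : ℝ), ∀ l, ∀ i, yt α β 0 (z / u l) i = E (four 0 i) (z / u l) := by
    rw [eventually_all]
    intro l
    have h1 : Tendsto (fun z : ℝ => z / u l) (𝓝 0) (𝓝 0) := by
      have := (continuous_id.div_const (u l : ℝ)).tendsto 0
      simpa using this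
    exact h1.eventually hsmall
  have main := multi_u hD Δ k (Fin k) u (fun b => (Q b).map (Rat.castHom ℝ)) (Fintype.card_fin k) hu hu1 (by
    filter_upwards [nhdsWithin_le_nhds hsm, nhdsWithin_le_nhds hball] with z h1 h2
    rw [← hval z h2]
    refine Finset.sum_congr rfl fun b _ => ?_
    congr 1
    refine Finset.prod_congr rfl fun l _ => ?_
    congr 1
    exact funext (h1 l))
  intro b
  have := main b
  rwa [Polynomial.map_eq_zero] at this

end Pool.Agent.NH25.MW
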