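import Pool.Agent.R351.GD.L.Win
import Pool.Agent.NH25.MW.Inp

/-!
# Periods of Legendre curves at the points `1 / (n u)`, `u` in a finitely generated monoid
-/

set_option autoImplicit false

open Module

namespace Pool.Agent.NH25.MW

open Pool.Agent.Y113 Pool.Agent.R351.GD

/-! ## the linear substitution, with different constants in the groups of variables -/

/-- the linear substitution -/
noncomputable def LV {k : ℕ} (γ : Fin k → ℝ) (p : Fin k × Fin 3) : MvPolynomial (Fin k × Fin 3) ℂ :=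
  MvPolynomial.rename (fun b => (p.1, b)) (Ls 1 (γ p.1) p.2)

/-- its inverse -/
noncomputable def LV' {k : ℕ} (γ : Fin k → ℝ) (p : Fin k × Fin 3) : MvPolynomial (Fin k × Fin 3) ℂ :=
  MvPolynomial.rename (fun b => (p.1, b)) (Ls' 1 (γ p.1) p.2)

lemma LV_inv {k : ℕ} (γ : Fin k → ℝ) (P : MvPolynomial (Fin k × Fin 3) ℂ) :
    MvPolynomial.aeval (LV' γ) (MvPolynomial.aeval (LV γ) P) = P := by
  have h2 : MvPolynomial.aeval (LV' γ) (MvPolynomial.aeval (LV γ) P) =
      MvPolynomial.aeval (fun i => MvPolynomial.aeval (LV' γ) (LV γ i)) P := by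
    rw [← MvPolynomial.comp_aeval_apply]
  rw [h2]
  have h1 : ∀ p, MvPolynomial.aeval (LV' γ) (LV γ p) = (MvPolynomial.X p : MvPolynomial (Fin k × Fin 3) ℂ) := by
    rintro ⟨i, a⟩
    unfold LV
    rw [MvPolynomial.aeval_rename]
    have h3 : (LV' γ ∘ fun b => (i, b)) = fun b => MvPolynomial.rename (fun b => (i, b)) (Ls' 1 (γ i) b) := rfl
    rw [h3]
    have h4 := Ls_inv 1 (γ i) one_ne_zero (MvPolynomial.X a)
    rw [MvPolynomial.aeval_X] at h4
    have h5 := congrArg (MvPolynomial.rename (R := ℂ) (fun b : Fin 3 => ((i, b) : Fin k × Fin 3))) h4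
    rw [MvPolynomial.rename_X] at h5
    rw [← h5]
    rw [← MvPolynomial.comp_aeval_apply]
  simp only [h1]
  exact MvPolynomial.aeval_X_left_apply P

/-! ## the substitution over `K` -/

section
variable {υ α : Type} [Fintype α]

/-- the linear form in the logarithms -/
noncomputable def lf (K : IntermediateField ℚ ℂ) (r : ℕ) (υ : Type) (m : α → ℕ) :
    MvPolynomial ((Option υ ⊕ Option α) ⊕ Fin r × Fin 3) K :=
  MvPolynomial.X (Sum.inl (Sum.inr none)) +
    ∑ a : α, MvPolynomial.C ((m a : K) / 2) * MvPolynomial.X (Sum.inl (Sum.inr (some a)))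

lemma lf_deg (K : IntermediateField ℚ ℂ) (r : ℕ) (υ : Type) (m : α → ℕ) : (lf K r υ m).totalDegree ≤ 1 := by
  refine (MvPolynomial.totalDegree_add _ _).trans (max_le ?_ ?_)
  · rw [MvPolynomial.totalDegree_X]
  · refine MvPolynomial.totalDegree_finsetSum_le fun a _ => ?_
    refine (MvPolynomial.totalDegree_mul _ _).trans ?_
    rw [MvPolynomial.totalDegree_C, MvPolynomial.totalDegree_X]

/-- the substitution over `K` -/
noncomputable def sbU (K : IntermediateField ℚ ℂ) {r : ℕ} (m : Fin r → α → ℕ) :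
    (Option υ) ⊕ Fin r × Fin 3 → MvPolynomial ((Option υ ⊕ Option α) ⊕ Fin r × Fin 3) K :=
  Sum.elim (fun o => MvPolynomial.X (Sum.inl (Sum.inl o))) fun p =>
    ![MvPolynomial.C (1 / 2 : K) * (MvPolynomial.X (Sum.inl (Sum.inl none)) * MvPolynomial.X (Sum.inr (p.1, 0))),
      MvPolynomial.C (1 / 2 : K) * (MvPolynomial.X (Sum.inl (Sum.inl none)) * MvPolynomial.X (Sum.inr (p.1, 1))),
      MvPolynomial.X (Sum.inr (p.1, 2)) + lf K r υ (m p.1) * MvPolynomial.X (Sum.inr (p.1, 0))] p.2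

theorem sbU_deg (K : IntermediateField ℚ ℂ) {r : ℕ} (m : Fin r → α → ℕ) (i : (Option υ) ⊕ Fin r × Fin 3) :
    (sbU (υ := υ) K m i).totalDegree ≤ 2 := by
  rcases i with o | ⟨i, a⟩
  · show (MvPolynomial.X _ : MvPolynomial ((Option υ ⊕ Option α) ⊕ Fin r × Fin 3) K).totalDegree ≤ 2
    rw [MvPolynomial.totalDegree_X]
    omega
  · have h1 : ∀ u v : (Option υ ⊕ Option α) ⊕ Fin r × Fin 3,
        (MvPolynomial.X u * MvPolynomial.X v : MvPolynomial ((Option υ ⊕ Option α) ⊕ Fin r × Fin 3) K).totalDegree ≤ 2 := by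
      intro u v
      refine (MvPolynomial.totalDegree_mul _ _).trans ?_
      rw [MvPolynomial.totalDegree_X, MvPolynomial.totalDegree_X]
    have h2 : ∀ u v : (Option υ ⊕ Option α) ⊕ Fin r × Fin 3,
        (MvPolynomial.C (1 / 2 : K) * (MvPolynomial.X u * MvPolynomial.X v) :
          MvPolynomial ((Option υ ⊕ Option α) ⊕ Fin r × Fin 3) K).totalDegree ≤ 2 := by
      intro u v
      refine (MvPolynomial.totalDegree_mul _ _).trans ?_
      rw [MvPolynomial.totalDegree_C, zero_add]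
      exact h1 u v
    fin_cases a
    · exact h2 _ _
    · exact h2 _ _
    · refine (MvPolynomial.totalDegree_add _ _).trans (max_le ?_ ?_)
      · rw [MvPolynomial.totalDegree_X]
        omega
      · refine (MvPolynomial.totalDegree_mul _ _).trans ?_
        rw [MvPolynomial.totalDegree_X]
        exact Nat.add_le_add_right (lf_deg K r υ (m i)) 1

end

/-- **Windows** -/
theorem legu_window (r q : ℕ) (A : Finset ℕ) (hA : 0 ∉ A) : ∃ E : ℕ → ℕ, PB E ∧ ∀ (δ H n : ℕ), (H + 2) ^ E δ ≤ n →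
    ∀ (υ : Type) [Fintype υ] (w : υ → ℂ), Fintype.card υ = q →
    ∃ S : Finset ℕ, S.card ≤ q + 2 + A.card ∧ ∀ u : Fin r → ℕ, Function.Injective u →
      (∀ i, u i ∈ Submonoid.closure (A : Set ℕ) ∧ u i ≤ H ∧ u i ∉ S) →
      ¬ RelK δ (fun o : Option υ => o.elim (Real.pi : ℂ) w) (tup per fun i => n * u i) := by
  classical
  obtain ⟨E₁, α, hval⟩ := legu_vals
  obtain ⟨E₂, hE₂p, hE₂⟩ := awh_exp Evu Evu_pb (σ := Fin 3) r (q + 2 + A.card) 1 1
  refine ⟨fun δ => E₁ + E₂ (2 * δ), (PB.const E₁).add (hE₂p.comp ((PB.const 2).mul PB.id)), fun δ H n hn υ _ w hw => ?_⟩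
  -- sizes
  have hbig : ∀ a ≤ E₁ + E₂ (2 * δ), (H + 2) ^ a ≤ n := fun a ha => (Nat.pow_le_pow_right (by omega) ha).trans hn
  have h2n : 2 ^ E₁ ≤ n := (Nat.pow_le_pow_left (by omega) _).trans (hbig E₁ (by omega))
  set γ : ℝ := α + 1 / 2 * Real.log n with hγ
  set v : Option υ ⊕ Option A → ℂ := Sum.elim (fun o => o.elim (Real.pi : ℂ) w)
    (fun o => o.elim (γ : ℂ) fun a => ((Real.log (a : ℕ) : ℝ) : ℂ)) with hv
  have hvc : (Finset.univ : Finset (Option υ ⊕ Option A)).card = q + 2 + A.card := by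
    rw [Finset.card_univ, Fintype.card_sum, Fintype.card_option, Fintype.card_option, Fintype.card_coe, hw]
    ring
  obtain ⟨S, hS, hwin⟩ := hE₂ (2 * δ) ℂ ℕ (fun t => t) (fun t g (a : Fin 3) => ((lgu t g a : ℝ) : ℂ)) legu_inp
    H n (hbig _ (by omega)) _ v Finset.univ hvc (Pool.Agent.Y916.Om.Dom.univ v)
  refine ⟨S, hS, fun u hu hub hrel => ?_⟩
  obtain ⟨K, hK, hKd, P, hP, hP0, hne⟩ := hrel
  -- exponents
  have hexp : ∀ i, ∃ m : A → ℕ, u i = ∏ a : A, a.1 ^ m a := fun i => by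
    obtain ⟨m, hm⟩ := Submonoid.mem_closure_finset'.1 (hub i).1
    exact ⟨m, hm⟩
  choose m hm using hexp
  have hA1 : ∀ a : A, 0 < (a : ℕ) := fun a => Nat.pos_of_ne_zero fun h => hA (h ▸ a.2)
  have hu1 : ∀ i, 1 ≤ u i := fun i => by
    rw [hm]
    exact Finset.prod_pos fun a _ => pow_pos (hA1 a) _
  have hlog : ∀ i, Real.log (u i : ℕ) = ∑ a : A, (m i a : ℝ) * Real.log (a : ℕ) := by
    intro i
    rw [hm i]
    push_cast
    rw [Real.log_prod (fun a _ => pow_ne_zero _ (by exact_mod_cast (hA1 a).ne'))]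
    refine Finset.sum_congr rfl fun a _ => ?_
    rw [Real.log_pow]
  set γi : Fin r → ℝ := fun i => γ + 1 / 2 * Real.log (u i : ℕ) with hγi
  have hgb : ∀ i, 1 ≤ u i ∧ u i ≤ H ∧ u i ∉ S := fun i => ⟨hu1 i, (hub i).2⟩
  set Q : MvPolynomial ((Option υ ⊕ Option A) ⊕ Fin r × Fin 3) K := MvPolynomial.aeval (sbU K m) P with hQ
  have hQd : Q.totalDegree ≤ 2 * δ := aeval_deg2 _ (sbU_deg K m) P hP
  -- the values
  have hvals : ∀ i : Fin r, (KK (1 / ((n * u i : ℕ) : ℝ)) = Real.pi / 2 * lgu n (u i) 0 ∧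
      EE (1 / ((n * u i : ℕ) : ℝ)) = Real.pi / 2 * lgu n (u i) 1 ∧
      KK (1 - 1 / ((n * u i : ℕ) : ℝ)) = lgu n (u i) 2 + γi i * lgu n (u i) 0) := by
    intro i
    exact hval n (u i) h2n (hu1 i)
  have hlf : ∀ (R : Type) [CommRing R] [Algebra ℂ R] (z : Fin r × Fin 3 → R) (i : Fin r),
      MvPolynomial.aeval (Sum.elim (fun j => algebraMap ℂ R (v j)) z) (lf K r υ (m i)) = algebraMap ℂ R (γi i : ℂ) := by
    intro R _ _ z i
    unfold lf
    rw [map_add, MvPolynomial.aeval_X, map_sum]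
    have h1 : ∀ a : A, MvPolynomial.aeval (Sum.elim (fun j => algebraMap ℂ R (v j)) z)
        (MvPolynomial.C ((m i a : K) / 2) * MvPolynomial.X (Sum.inl (Sum.inr (some a))) :
          MvPolynomial ((Option υ ⊕ Option A) ⊕ Fin r × Fin 3) K) =
        algebraMap ℂ R (((m i a : ℂ) / 2) * ((Real.log (a : ℕ) : ℝ) : ℂ)) := by
      intro a
      rw [map_mul, MvPolynomial.aeval_X, MvPolynomial.aeval_C, IsScalarTower.algebraMap_apply K ℂ R, map_mul]
      congr 2
    rw [Finset.sum_congr rfl fun a _ => h1 a, ← map_sum]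
    show algebraMap ℂ R (γ : ℂ) + _ = _
    rw [← map_add]
    congr 1
    rw [hγi]
    simp only
    rw [hlog]
    push_cast
    rw [Finset.mul_sum]
    congr 1
    refine Finset.sum_congr rfl fun a _ => ?_
    ring
  have hQv : ∀ (R : Type) [CommRing R] [Algebra ℂ R] (z : Fin r × Fin 3 → R),
      MvPolynomial.aeval (Sum.elim (fun j => algebraMap ℂ R (v j)) z) Q =
      MvPolynomial.aeval (Sum.elim (fun o : Option υ => algebraMap ℂ R (o.elim (Real.pi : ℂ) w)) (fun p =>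
        (![algebraMap ℂ R ((Real.pi / 2 : ℝ) : ℂ) * z (p.1, 0), algebraMap ℂ R ((Real.pi / 2 : ℝ) : ℂ) * z (p.1, 1),
          z (p.1, 2) + algebraMap ℂ R (γi p.1 : ℂ) * z (p.1, 0)] : Fin 3 → R) p.2)) P := by
    intro R _ _ z
    rw [hQ, MvPolynomial.comp_aeval_apply]
    congr 1
    congr 1
    funext i
    rcases i with o | ⟨i, a⟩
    · show MvPolynomial.aeval _ (MvPolynomial.X _) = _
      rw [MvPolynomial.aeval_X]
      rfl
    · have h2 : (algebraMap K R) (1 / 2) = algebraMap ℂ R (1 / 2) := by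
        rw [IsScalarTower.algebraMap_apply K ℂ R]
        congr 1
      fin_cases a
      · show MvPolynomial.aeval _ (MvPolynomial.C _ * (MvPolynomial.X _ * MvPolynomial.X _)) = _
        rw [map_mul, map_mul, MvPolynomial.aeval_X, MvPolynomial.aeval_X, MvPolynomial.aeval_C, h2]
        show algebraMap ℂ R (1 / 2) * (algebraMap ℂ R (Real.pi : ℂ) * z (i, 0)) =
          algebraMap ℂ R ((Real.pi / 2 : ℝ) : ℂ) * z (i, 0)
        rw [← mul_assoc, ← map_mul]
        congr 2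
        push_cast
        ring
      · show MvPolynomial.aeval _ (MvPolynomial.C _ * (MvPolynomial.X _ * MvPolynomial.X _)) = _
        rw [map_mul, map_mul, MvPolynomial.aeval_X, MvPolynomial.aeval_X, MvPolynomial.aeval_C, h2]
        show algebraMap ℂ R (1 / 2) * (algebraMap ℂ R (Real.pi : ℂ) * z (i, 1)) =
          algebraMap ℂ R ((Real.pi / 2 : ℝ) : ℂ) * z (i, 1)
        rw [← mul_assoc, ← map_mul]
        congr 2
        push_cast
        ring
      · show MvPolynomial.aeval _ (MvPolynomial.X _ + lf K r υ (m i) * MvPolynomial.X _) = _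
        rw [map_add, map_mul, MvPolynomial.aeval_X, MvPolynomial.aeval_X, hlf R z i]
        rfl
  have hx : (fun p : Fin r × Fin 3 => (![algebraMap ℂ ℂ ((Real.pi / 2 : ℝ) : ℂ) * ((lgu n (u p.1) 0 : ℝ) : ℂ),
      algebraMap ℂ ℂ ((Real.pi / 2 : ℝ) : ℂ) * ((lgu n (u p.1) 1 : ℝ) : ℂ),
      ((lgu n (u p.1) 2 : ℝ) : ℂ) + algebraMap ℂ ℂ (γi p.1 : ℂ) * ((lgu n (u p.1) 0 : ℝ) : ℂ)] : Fin 3 → ℂ) p.2) =
      tup per fun i => n * u i := by
    funext ⟨i, a⟩
    obtain ⟨h1, h2, h3⟩ := hvals i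
    fin_cases a
    · show ((Real.pi / 2 : ℝ) : ℂ) * ((lgu n (u i) 0 : ℝ) : ℂ) = (KK (1 / ((n * u i : ℕ) : ℝ)) : ℂ)
      rw [h1]
      push_cast
      rfl
    · show ((Real.pi / 2 : ℝ) : ℂ) * ((lgu n (u i) 1 : ℝ) : ℂ) = (EE (1 / ((n * u i : ℕ) : ℝ)) : ℂ)
      rw [h2]
      push_cast
      rfl
    · show ((lgu n (u i) 2 : ℝ) : ℂ) + (γi i : ℂ) * ((lgu n (u i) 0 : ℝ) : ℂ) = (KK (1 - 1 / ((n * u i : ℕ) : ℝ)) : ℂ)
      rw [h3]
      push_cast
      rfl
  have hQ0 : MvPolynomial.aeval (Sum.elim v fun p : Fin r × Fin 3 => ((lgu n (u p.1) p.2 : ℝ) : ℂ)) Q = 0 := by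
    have h1 := hQv ℂ fun p : Fin r × Fin 3 => ((lgu n (u p.1) p.2 : ℝ) : ℂ)
    rw [hx] at h1
    exact h1.trans hP0
  have h5 := hwin u hu hgb K hK (hKd.trans (by omega)) (fun p => ((lgu n (u p.1) p.2 : ℝ) : ℂ))
    (fun p => ⟨1, one_ne_zero, by simp⟩) Q hQd hQ0
  apply hne
  have h6 := hQv (MvPolynomial (Fin r × Fin 3) ℂ) MvPolynomial.X
  have h7 : (fun j => algebraMap ℂ (MvPolynomial (Fin r × Fin 3) ℂ) (v j)) = fun j => MvPolynomial.C (v j) := rfl
  rw [h7, h5] at h6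
  -- the substitution is injective
  have h8 : MvPolynomial.aeval (LV γi) (MvPolynomial.aeval (Sum.elim (fun o : Option υ =>
      MvPolynomial.C (o.elim (Real.pi : ℂ) w)) MvPolynomial.X) P : MvPolynomial (Fin r × Fin 3) ℂ) = 0 := by
    have h9 : ((MvPolynomial.aeval (LV γi) : MvPolynomial (Fin r × Fin 3) ℂ →ₐ[ℂ] _).restrictScalars K).comp
        (MvPolynomial.aeval (Sum.elim (fun o : Option υ => MvPolynomial.C (o.elim (Real.pi : ℂ) w)) MvPolynomial.X)) =
        (MvPolynomial.aeval (Sum.elim (fun o : Option υ => algebraMap ℂ (MvPolynomial (Fin r × Fin 3) ℂ)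
          (o.elim (Real.pi : ℂ) w)) (fun p =>
        (![algebraMap ℂ (MvPolynomial (Fin r × Fin 3) ℂ) ((Real.pi / 2 : ℝ) : ℂ) * MvPolynomial.X (p.1, 0),
          algebraMap ℂ (MvPolynomial (Fin r × Fin 3) ℂ) ((Real.pi / 2 : ℝ) : ℂ) * MvPolynomial.X (p.1, 1),
          MvPolynomial.X (p.1, 2) + algebraMap ℂ (MvPolynomial (Fin r × Fin 3) ℂ) (γi p.1 : ℂ) * MvPolynomial.X (p.1, 0)] :
          Fin 3 → MvPolynomial (Fin r × Fin 3) ℂ) p.2)) : MvPolynomial ((Option υ) ⊕ Fin r × Fin 3) K →ₐ[K] _) := by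
      refine MvPolynomial.algHom_ext fun i => ?_
      rw [AlgHom.comp_apply, MvPolynomial.aeval_X, MvPolynomial.aeval_X]
      rcases i with o | ⟨i, a⟩
      · show MvPolynomial.aeval (LV γi) (MvPolynomial.C _) = _
        rw [MvPolynomial.aeval_C]
        rfl
      · show MvPolynomial.aeval (LV γi) (MvPolynomial.X (i, a)) = _
        rw [MvPolynomial.aeval_X]
        unfold LV
        fin_cases a
        · show MvPolynomial.rename _ (MvPolynomial.C _ * MvPolynomial.X _) = _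
          rw [map_mul, MvPolynomial.rename_C, MvPolynomial.rename_X]
          rfl
        · show MvPolynomial.rename _ (MvPolynomial.C _ * MvPolynomial.X _) = _
          rw [map_mul, MvPolynomial.rename_C, MvPolynomial.rename_X]
          rfl
        · show MvPolynomial.rename _ (MvPolynomial.C ((1 : ℝ) : ℂ) * MvPolynomial.X _ + MvPolynomial.C _ * MvPolynomial.X _) = _
          rw [map_add, map_mul, map_mul, MvPolynomial.rename_C, MvPolynomial.rename_X, MvPolynomial.rename_C,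
            MvPolynomial.rename_X, Complex.ofReal_one, MvPolynomial.C_1, one_mul]
          rfl
    have h10 := DFunLike.congr_fun h9 P
    rw [AlgHom.comp_apply] at h10
    exact h10.trans h6.symm
  have h11 := LV_inv γi (MvPolynomial.aeval (Sum.elim (fun o : Option υ =>
      MvPolynomial.C (o.elim (Real.pi : ℂ) w)) MvPolynomial.X) P : MvPolynomial (Fin r × Fin 3) ℂ)
  rw [h8, map_zero] at h11
  exact h11.symm

end Pool.Agent.NH25.MW
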