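import Pool.Agent.R351.GD.L.Tup
import Pool.Agent.NH25.MW.Win
import Pool.Agent.NH25.MW.Cov

/-!
# Periods of Legendre curves at the points `1 / t`, `t` in a finitely generated monoid: tuples
-/

set_option autoImplicit false

open Module

namespace Pool.Agent.NH25.MW

open Pool.Agent.Y113 Pool.Agent.R351.GD
open Pool.Agent.Y916.Om (BadW)

open Classical in
/-- tuples -/
theorem legu_tuples (k q : ℕ) (A : Finset ℕ) (hA : ∀ a ∈ A, 2 ≤ a) : ∃ C : ℕ, ∀ (δ : ℕ) (w : Fin q → ℂ) (T : ℕ),
      ((Fintype.piFinset fun _ : Fin k => (Finset.Icc 2 T).filter fun t => t ∈ Submonoid.closure (A : Set ℕ)).filter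
        fun t => RelK δ w (tup per t)).card ≤
      (δ + 2) ^ C * (Nat.log 2 (Nat.log 2 T) + 1) *
        ((Finset.Icc 2 T).filter fun t => t ∈ Submonoid.closure (A : Set ℕ)).card ^ (k - 1) := by
  set Q := q + k * Fintype.card (Fin 3) with hQ
  obtain ⟨E₀, hE₀p, hE₀⟩ := legu_window 1 Q A (fun h => by
    have := hA 0 h
    omega)
  set b : ℕ := ∏ a ∈ A, a with hb
  have hb1 : 1 ≤ b := Finset.prod_pos fun a ha => lt_of_lt_of_le (by norm_num) (hA a ha)
  set E : ℕ → ℕ := fun δ => E₀ ((k + 2) * δ) with hEdef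
  have hEp : PB E := hE₀p.comp ((PB.const (k + 2)).mul PB.id)
  set F : ℕ → ℕ := fun δ => k * ((Q + 2 + A.card) * (8 * b * (E δ + 1) + 1) ^ A.card) with hF
  have hFp : PB F := (PB.const k).mul ((PB.const (Q + 2 + A.card)).mul
    ((((PB.const (8 * b)).mul (hEp.add (PB.const 1))).add (PB.const 1)).pow A.card))
  obtain ⟨C, hC⟩ := hFp
  refine ⟨C, fun δ w T => ?_⟩
  set M : Finset ℕ := (Finset.Icc 2 T).filter fun t => t ∈ Submonoid.closure (A : Set ℕ) with hM
  set Z : ℕ := (Q + 2 + A.card) * ((Nat.log 2 (Nat.log 2 T) + 1) * (8 * b * (E δ + 1) + 1) ^ A.card) with hZ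
  have h1 := tup_badS (Ω := ℂ) per δ M.card Z Q ((k + 1) * δ) M le_rfl (fun w' => by
      refine cov_win A hA b hb1 (Nat.lt_two_pow_self).le (E δ) (Q + 2 + A.card) (by omega)
        (fun t => BadW δ δ ((k + 1) * δ) w' (per t)) (fun H n hn S hS => ?_) T _ (fun t ht => ?_)
      · obtain ⟨S', hS', h⟩ := hE₀ ((k + 2) * δ) H n hn (Fin Q) w' (by rw [Fintype.card_fin])
        refine (Finset.card_le_card (t := S'.image fun u => n * u) fun s hs => ?_).trans
          (Finset.card_image_le.trans hS')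
        obtain ⟨hbad, u, huM, huH, rfl⟩ := hS s hs
        by_contra hcon
        refine h (fun _ => u) (fun i j _ => Subsingleton.elim i j) (fun _ => ⟨huM, huH, fun hu =>
          hcon (Finset.mem_image.2 ⟨u, hu, rfl⟩)⟩) ?_
        have h3 : RelK ((k + 2) * δ) w' (per (n * u)) := by
          refine badW_relK hbad ?_ (le_of_eq (by ring))
          exact Nat.le_mul_of_pos_left δ (by omega)
        have h5 := h3.embed (fun o : Option (Fin Q) => o.elim (Real.pi : ℂ) w') some (fun _ => rfl)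
          (Equiv.uniqueProd (Fin 3) (Fin 1)).symm
        exact h5
      · obtain ⟨ht1, ht2⟩ := Finset.mem_filter.1 ht
        rw [hM, Finset.mem_filter, Finset.mem_Icc] at ht1
        exact ⟨ht2, ht1.2, ht1.1.1, ht1.1.2⟩) k δ (Fin q) w
    (by rw [Fintype.card_fin]) (le_of_eq (by ring))
  have h2 : ((Fintype.piFinset fun _ : Fin k => M).filter fun t => RelK δ w (tup per t)).card ≤
      k * Z * M.card ^ (k - 1) := by
    refine (Finset.card_le_card fun t ht => ?_).trans h1
    obtain ⟨ht1, ht2⟩ := Finset.mem_filter.1 ht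
    exact Finset.mem_filter.2 ⟨ht1, relK_badW ht2⟩
  refine h2.trans (Nat.mul_le_mul_right _ ?_)
  have h3 := hC δ
  calc k * Z = F δ * (Nat.log 2 (Nat.log 2 T) + 1) := by
        rw [hZ, hF]
        ring
    _ ≤ _ := Nat.mul_le_mul_right _ h3

end Pool.Agent.NH25.MW
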